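import Mathlib

set_option autoImplicit false

namespace Pool.Agent.Results.MP_29b953_an.TwoMaps

open Polynomial Real

/-- `f` is a compressing function for the finite set `S` of `N` reals:
`S = {x₀, f x₀, …, f^(N-1) x₀}` for some `x₀ ∈ S`. -/
def Compresses (f : ℝ[X]) (S : Finset ℝ) : Prop :=
  ∃ x₀ ∈ S, (S : Set ℝ) = {y | ∃ i < S.card, y = (fun x => f.eval x)^[i] x₀}

noncomputable def pt (n k : ℕ) : ℝ := 2 * cos (3 ^ k * (π / (3 ^ n + 1)))

lemma pt_succ (n k : ℕ) : pt n (k + 1) = pt n k ^ 3 - 3 * pt n k := by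
  unfold pt
  rw [pow_succ', mul_assoc, cos_three_mul]; ring

lemma iter (n i : ℕ) : (fun x : ℝ => x ^ 3 - 3 * x)^[i] (pt n 0) = pt n i := by
  induction i with
  | zero => rfl
  | succ i ih => rw [Function.iterate_succ_apply', ih, pt_succ]

lemma iter' (n i : ℕ) : (fun x : ℝ => -(x ^ 3 - 3 * x))^[i] (pt n 0) = (-1) ^ i * pt n i := by
  induction i with
  | zero => simp
  | succ i ih =>
    rw [Function.iterate_succ_apply', ih, pt_succ]
    rcases neg_one_pow_eq_or ℝ i with h | h <;> rw [pow_succ (-1 : ℝ), h] <;> ring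

lemma pt_per (n k : ℕ) : pt n (k + n) = -pt n k := by
  induction k with
  | zero =>
    unfold pt
    have : (3:ℝ) ^ (0 + n) * (π / (3 ^ n + 1)) = π - 3 ^ 0 * (π / (3 ^ n + 1)) := by
      rw [zero_add]; field_simp; ring
    rw [this, cos_pi_sub]; ring
  | succ k ih => rw [show k + 1 + n = k + n + 1 by ring, pt_succ, pt_succ, ih]; ring

lemma ang (n k : ℕ) (hk : k < n) : 0 ≤ (3:ℝ) ^ k * (π / (3 ^ n + 1)) ∧
    (3:ℝ) ^ k * (π / (3 ^ n + 1)) < π / 2 := by
  refine ⟨by positivity, ?_⟩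
  have : (3:ℝ) ^ (k + 1) ≤ 3 ^ n := pow_le_pow_right₀ (by norm_num) hk
  have h3 : (0:ℝ) < 3 ^ k := by positivity
  rw [← mul_div_assoc, div_lt_iff₀ (by positivity)]
  rw [pow_succ] at this
  nlinarith [pi_pos]

lemma pt_pos (n k : ℕ) (hk : k < n) : 0 < pt n k :=
  mul_pos two_pos (cos_pos_of_mem_Ioo ⟨by linarith [(ang n k hk).1, pi_pos], (ang n k hk).2⟩)

lemma pt_inj0 (n i j : ℕ) (hi : i < n) (hj : j < n) (h : pt n i = pt n j) : i = j := by
  have h1 := injOn_cos ⟨(ang n i hi).1, by linarith [(ang n i hi).2, pi_pos]⟩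
    ⟨(ang n j hj).1, by linarith [(ang n j hj).2, pi_pos]⟩ (by unfold pt at h; linarith)
  have h2 : (3:ℝ) ^ i = 3 ^ j := mul_right_cancel₀ (by positivity) h1
  exact pow_right_injective₀ (by norm_num) (by norm_num) h2

lemma pt_inj (n : ℕ) : Set.InjOn (pt n) (Finset.range (2 * n) : Set ℕ) := by
  intro i hi j hj h
  simp only [Finset.coe_range, Set.mem_Iio] at hi hj
  rcases lt_or_ge i n with h1 | h1 <;> rcases lt_or_ge j n with h2 | h2
  · exact pt_inj0 n i j h1 h2 h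
  · obtain ⟨j, rfl⟩ := Nat.exists_eq_add_of_le' h2
    rw [pt_per] at h
    linarith [pt_pos n i h1, pt_pos n j (by omega)]
  · obtain ⟨i, rfl⟩ := Nat.exists_eq_add_of_le' h1
    rw [pt_per] at h
    linarith [pt_pos n j h2, pt_pos n i (by omega)]
  · obtain ⟨i, rfl⟩ := Nat.exists_eq_add_of_le' h1
    obtain ⟨j, rfl⟩ := Nat.exists_eq_add_of_le' h2
    rw [pt_per, pt_per, neg_inj] at h
    rw [pt_inj0 n i j (by omega) (by omega) h]

lemma flip_odd (m k : ℕ) (hk : k < 2 * (2 * m)) (ho : Odd k) :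
    ∃ i < 2 * (2 * m), Odd i ∧ pt (2 * m) i = -pt (2 * m) k := by
  obtain ⟨r, rfl⟩ := ho
  rcases lt_or_ge (2 * r + 1) (2 * m) with h | h
  · exact ⟨2 * r + 1 + 2 * m, by omega, ⟨r + m, by ring⟩, pt_per _ _⟩
  · refine ⟨2 * r + 1 - 2 * m, by omega, ⟨r - m, by omega⟩, ?_⟩
    have := pt_per (2 * m) (2 * r + 1 - 2 * m)
    rw [Nat.sub_add_cancel h] at this
    linarith

theorem result (K : ℕ) (hK : 3 ≤ K) (m : ℕ) (hm : 1 ≤ m) :
    ∃ S : Finset ℝ, S.card = 4 * m ∧ ∃ f g : ℝ[X], f ≠ g ∧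
      2 ≤ f.natDegree ∧ f.natDegree ≤ K ∧ 2 ≤ g.natDegree ∧ g.natDegree ≤ K ∧
      Compresses f S ∧ Compresses g S := by
  have hc : ((Finset.range (2 * (2 * m))).image (pt (2 * m))).card = 2 * (2 * m) := by
    rw [Finset.card_image_of_injOn (pt_inj _), Finset.card_range]
  have d1 : (X ^ 3 - 3 * X : ℝ[X]).natDegree = 3 := by compute_degree!
  have d2 : (-(X ^ 3 - 3 * X) : ℝ[X]).natDegree = 3 := by rw [natDegree_neg, d1]
  have hmem : pt (2 * m) 0 ∈ (Finset.range (2 * (2 * m))).image (pt (2 * m)) :=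
    Finset.mem_image_of_mem _ (by simp; omega)
  refine ⟨(Finset.range (2 * (2 * m))).image (pt (2 * m)), by omega, X ^ 3 - 3 * X,
    -(X ^ 3 - 3 * X), fun h => ?_, by omega, by omega, by omega, by omega,
    ⟨_, hmem, ?_⟩, ⟨_, hmem, ?_⟩⟩
  · have := congrArg (eval 1) h
    simp at this
    norm_num at this
  · ext y
    simp only [hc, eval_sub, eval_pow, eval_X, eval_mul, eval_ofNat, iter, Finset.coe_image,
      Finset.coe_range, Set.mem_image, Set.mem_Iio, Set.mem_ofPred_eq, eq_comm]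
  · ext y
    simp only [hc, eval_neg, eval_sub, eval_pow, eval_X, eval_mul, eval_ofNat, iter',
      Finset.coe_image, Finset.coe_range, Set.mem_image, Set.mem_Iio, Set.mem_ofPred_eq]
    constructor
    · rintro ⟨k, hk, rfl⟩
      rcases Nat.even_or_odd k with h | h
      · exact ⟨k, hk, by rw [h.neg_one_pow, one_mul]⟩
      · obtain ⟨i, hi, ho, e⟩ := flip_odd m k hk h
        exact ⟨i, hi, by rw [ho.neg_one_pow, e]; ring⟩
    · rintro ⟨k, hk, rfl⟩
      rcases Nat.even_or_odd k with h | h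
      · exact ⟨k, hk, by rw [h.neg_one_pow, one_mul]⟩
      · obtain ⟨i, hi, ho, e⟩ := flip_odd m k hk h
        exact ⟨i, hi, by rw [h.neg_one_pow, e]; ring⟩

end Pool.Agent.Results.MP_29b953_an.TwoMaps
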